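import Pool.Agent.Y782.SA.Stm

/-!
Pointwise bound of a test function (`Pool.Agent.Y782.SA.S_G`).
-/

set_option autoImplicit false

open MeasureTheory Set Filter Topology Pool.Agent.Y782.SA

namespace Pool.Agent.Y658.SA

section

variable {E : Type} [NormedAddCommGroup E] [InnerProductSpace ℝ E]

theorem int_nsq {f : ℝ → E} (hf : IsTest f) : Integrable (fun x => ‖f x‖ ^ 2) := by
  refine Continuous.integrable_of_hasCompactSupport (by have := hf.1.continuous; fun_prop) ?_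
  exact hf.2.comp_left (g := fun v : E => ‖v‖ ^ 2) (by simp)

theorem int_dsq {f : ℝ → E} (hf : IsTest f) : Integrable (fun x => ‖deriv f x‖ ^ 2) := by
  have h1 : Continuous (deriv f) := hf.1.continuous_deriv le_rfl
  refine Continuous.integrable_of_hasCompactSupport (by fun_prop) ?_
  exact hf.2.deriv.comp_left (g := fun v : E => ‖v‖ ^ 2) (by simp)

theorem int_xsq {f : ℝ → E} (hf : IsTest f) : Integrable (fun x => x * ‖f x‖ ^ 2) := by
  refine Continuous.integrable_of_hasCompactSupport (by have := hf.1.continuous; fun_prop) ?_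
  exact (hf.2.comp_left (g := fun v : E => ‖v‖ ^ 2) (by simp)).mul_left (f := fun x : ℝ => x)

end

theorem g_bound : S_G := by
  intro E _ _ _ κ f t hκ hf ht
  set s : ℝ := Real.sqrt (κ * t + 1) with hs
  have hs0 : 0 ≤ s := Real.sqrt_nonneg _
  have hs2 : s ^ 2 = κ * t + 1 := Real.sq_sqrt (by positivity)
  have hd : ∀ x, HasDerivAt f (deriv f x) x := fun x =>
    (hf.1.differentiable one_ne_zero x).hasDerivAt
  have hφ : ∀ x, HasDerivAt (fun x => ‖f x‖ ^ 2) (2 * inner ℝ (f x) (deriv f x)) x := fun x =>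
    (hd x).norm_sq
  have hφc : ContDiff ℝ 1 (fun x => ‖f x‖ ^ 2) := hf.1.norm_sq ℝ
  have hφs : HasCompactSupport (fun x => ‖f x‖ ^ 2) :=
    hf.2.comp_left (g := fun v : E => ‖v‖ ^ 2) (by simp)
  have h1 : ∫ x in Ioi t, deriv (fun x => ‖f x‖ ^ 2) x = -‖f t‖ ^ 2 :=
    hφs.integral_Ioi_deriv_eq hφc t
  have hder : ∀ x, deriv (fun x => ‖f x‖ ^ 2) x = 2 * inner ℝ (f x) (deriv f x) := fun x =>
    (hφ x).deriv
  have hint : Integrable (fun x => (κ * (x * ‖f x‖ ^ 2) + ‖f x‖ ^ 2) + ‖deriv f x‖ ^ 2) :=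
    (((int_xsq hf).const_mul κ).add (int_nsq hf)).add (int_dsq hf)
  have hint2 : Integrable (fun x => -s * deriv (fun x => ‖f x‖ ^ 2) x) := by
    refine Integrable.const_mul ?_ _
    exact Continuous.integrable_of_hasCompactSupport (hφc.continuous_deriv le_rfl) hφs.deriv
  have h2 : ‖f t‖ ^ 2 * s = ∫ x in Ioi t, -s * deriv (fun x => ‖f x‖ ^ 2) x := by
    rw [integral_const_mul, h1]
    ring
  have h3 : ∫ x in Ioi t, -s * deriv (fun x => ‖f x‖ ^ 2) x ≤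
      ∫ x in Ioi t, ((κ * (x * ‖f x‖ ^ 2) + ‖f x‖ ^ 2) + ‖deriv f x‖ ^ 2) := by
    refine setIntegral_mono_on hint2.integrableOn hint.integrableOn measurableSet_Ioi
      fun x hx => ?_
    rw [hder]
    have hx' : t < x := hx
    have e1 : |inner ℝ (f x) (deriv f x)| ≤ ‖f x‖ * ‖deriv f x‖ := abs_real_inner_le_norm _ _
    have e2 : -(‖f x‖ * ‖deriv f x‖) ≤ inner ℝ (f x) (deriv f x) := (abs_le.mp e1).1
    have e3 : 0 ≤ (s * ‖f x‖ - ‖deriv f x‖) ^ 2 := sq_nonneg _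
    have e4 : κ * t * ‖f x‖ ^ 2 ≤ κ * x * ‖f x‖ ^ 2 := by
      apply mul_le_mul_of_nonneg_right _ (sq_nonneg _)
      exact mul_le_mul_of_nonneg_left hx'.le hκ
    have e5 : -s * (2 * inner ℝ (f x) (deriv f x)) ≤ 2 * s * (‖f x‖ * ‖deriv f x‖) := by
      nlinarith
    have e6 : (s * ‖f x‖ - ‖deriv f x‖) ^ 2 =
        s ^ 2 * ‖f x‖ ^ 2 - 2 * s * (‖f x‖ * ‖deriv f x‖) + ‖deriv f x‖ ^ 2 := by ring
    rw [e6, hs2] at e3
    nlinarith
  have h4 : ∫ x in Ioi t, ((κ * (x * ‖f x‖ ^ 2) + ‖f x‖ ^ 2) + ‖deriv f x‖ ^ 2) ≤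
      ∫ x in Ioi (0 : ℝ), ((κ * (x * ‖f x‖ ^ 2) + ‖f x‖ ^ 2) + ‖deriv f x‖ ^ 2) := by
    refine setIntegral_mono_set hint.integrableOn ?_ (Ioi_subset_Ioi ht).eventuallyLE
    refine (ae_restrict_iff' measurableSet_Ioi).mpr (Eventually.of_forall fun x hx => ?_)
    have hx' : 0 < x := hx
    have : 0 ≤ κ * (x * ‖f x‖ ^ 2) := by positivity
    change 0 ≤ (κ * (x * ‖f x‖ ^ 2) + ‖f x‖ ^ 2) + ‖deriv f x‖ ^ 2
    positivity
  have h5 : ∫ x in Ioi (0 : ℝ), ((κ * (x * ‖f x‖ ^ 2) + ‖f x‖ ^ 2) + ‖deriv f x‖ ^ 2) =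
      dsq f + κ * xsq f + nsq f := by
    have i1 : IntegrableOn (fun x => κ * (x * ‖f x‖ ^ 2) + ‖f x‖ ^ 2) (Ioi (0 : ℝ)) :=
      (((int_xsq hf).const_mul κ).add (int_nsq hf)).integrableOn
    have i2 : IntegrableOn (fun x => ‖deriv f x‖ ^ 2) (Ioi (0 : ℝ)) := (int_dsq hf).integrableOn
    have i3 : IntegrableOn (fun x => κ * (x * ‖f x‖ ^ 2)) (Ioi (0 : ℝ)) :=
      ((int_xsq hf).const_mul κ).integrableOn
    have i4 : IntegrableOn (fun x => ‖f x‖ ^ 2) (Ioi (0 : ℝ)) := (int_nsq hf).integrableOn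
    rw [integral_add i1 i2, integral_add i3 i4, integral_const_mul]
    unfold dsq xsq nsq
    ring
  rw [h2]
  exact (h3.trans h4).trans h5.le

end Pool.Agent.Y658.SA
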