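import Pool.Agent.Y782.SA.Stm

/-!
The effect of one jump of the path on the log-determinant (`Pool.Agent.Y782.SA.S_PERT`).
-/

set_option autoImplicit false

open MeasureTheory Set Filter Topology Matrix Pool.Agent.Y782.SA

namespace Pool.Agent.Y658.SA

section basis

variable {E : Type} [NormedAddCommGroup E] [InnerProductSpace ℝ E] {d : ℕ}

/-- the part of a symmetric operator on the first `l` eigenvectors -/
noncomputable def BLs (u : OrthonormalBasis (Fin d) ℝ E) (a : Fin d → ℝ) (l : ℕ) : E →L[ℝ] E :=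
  ∑ i : Fin d, (if (i : ℕ) < l then a i else 0) • (innerSL ℝ (u i)).smulRight (u i)

theorem BL_apply (u : OrthonormalBasis (Fin d) ℝ E) (a : Fin d → ℝ) (l : ℕ) (x : E) :
    BLs u a l x = ∑ i : Fin d, (if (i : ℕ) < l then a i else 0) • (inner ℝ (u i) x • u i) := by
  unfold BLs
  rw [_root_.sum_apply]
  rfl

theorem BL_inner (u : OrthonormalBasis (Fin d) ℝ E) (a : Fin d → ℝ) (l : ℕ) (x : E) (k : Fin d) :
    inner ℝ (u k) (BLs u a l x) = (if (k : ℕ) < l then a k else 0) * inner ℝ (u k) x := by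
  rw [BL_apply, inner_sum, Finset.sum_eq_single k]
  · rw [real_inner_smul_right, real_inner_smul_right, real_inner_self_eq_norm_sq,
      u.orthonormal.1 k]
    ring
  · intro i _ hi
    rw [real_inner_smul_right, real_inner_smul_right, u.orthonormal.2 (Ne.symm hi), mul_zero,
      mul_zero]
  · intro h
    exact absurd (Finset.mem_univ _) h

theorem BL_sym (u : OrthonormalBasis (Fin d) ℝ E) (a : Fin d → ℝ) (l : ℕ) :
    Sym (BLs u a l) := by
  intro x y
  rw [BL_apply, BL_apply, sum_inner, inner_sum]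
  refine Finset.sum_congr rfl fun i _ => ?_
  rw [real_inner_smul_left, real_inner_smul_left, real_inner_smul_right, real_inner_smul_right,
    real_inner_comm x (u i)]
  ring

theorem BL_norm (u : OrthonormalBasis (Fin d) ℝ E) (a : Fin d → ℝ) (l : ℕ) (b : ℝ) (hb : 0 ≤ b)
    (ha : ∀ i, |a i| ≤ b) : ‖BLs u a l‖ ≤ b := by
  refine ContinuousLinearMap.opNorm_le_bound _ hb fun x => ?_
  rw [← sq_le_sq₀ (norm_nonneg _) (by positivity), ← u.sum_sq_norm_inner_right, mul_pow,
    ← u.sum_sq_norm_inner_right x, Finset.mul_sum]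
  refine Finset.sum_le_sum fun i _ => ?_
  rw [BL_inner, norm_mul, mul_pow]
  apply mul_le_mul_of_nonneg_right _ (sq_nonneg _)
  apply pow_le_pow_left₀ (norm_nonneg _)
  split_ifs
  · exact ha i
  · rw [norm_zero]
    exact hb

theorem BL_zero (u : OrthonormalBasis (Fin d) ℝ E) (a : Fin d → ℝ) : BLs u a 0 = 0 := by
  ext x
  rw [BL_apply]
  simp

theorem BL_all (u : OrthonormalBasis (Fin d) ℝ E) (a : Fin d → ℝ) (B : E →L[ℝ] E)
    (h : ∀ i, B (u i) = a i • u i) : BLs u a d = B := by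
  ext x
  rw [BL_apply]
  conv_rhs => rw [← u.sum_repr' x, map_sum]
  refine Finset.sum_congr rfl fun i _ => ?_
  rw [if_pos i.2, map_smul, h, smul_comm]

theorem BL_succ (u : OrthonormalBasis (Fin d) ℝ E) (a : Fin d → ℝ) (k : Fin d) (x y : E) :
    inner ℝ (BLs u a (k + 1) x) y = inner ℝ (BLs u a k x) y +
      a k * (inner ℝ (u k) x * inner ℝ (u k) y) := by
  rw [BL_apply, BL_apply, sum_inner, sum_inner]
  have h : ∀ i : Fin d, inner ℝ ((if (i : ℕ) < k + 1 then a i else 0) • (inner ℝ (u i) x • u i)) y =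
      inner ℝ ((if (i : ℕ) < k then a i else 0) • (inner ℝ (u i) x • u i)) y +
      if i = k then a k * (inner ℝ (u k) x * inner ℝ (u k) y) else 0 := by
    intro i
    rw [real_inner_smul_left, real_inner_smul_left, real_inner_smul_left, real_inner_smul_left]
    rcases lt_trichotomy (i : ℕ) (k : ℕ) with h1 | h1 | h1
    · rw [if_pos (by omega), if_pos h1, if_neg (fun h2 => by rw [h2] at h1; omega), add_zero]
    · have h2 : i = k := Fin.ext h1
      subst h2
      rw [if_pos (by omega), if_neg (by omega), if_pos rfl]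
      ring
    · rw [if_neg (by omega), if_neg (by omega), if_neg (fun h2 => by rw [h2] at h1; omega)]
      ring
  rw [Finset.sum_congr rfl (fun i _ => h i), Finset.sum_add_distrib]
  simp

end basis

theorem dsq_nonneg {E : Type} [NormedAddCommGroup E] [InnerProductSpace ℝ E] (f : ℝ → E) :
    0 ≤ dsq f := integral_nonneg fun _ => sq_nonneg _

theorem xsq_nonneg {E : Type} [NormedAddCommGroup E] [InnerProductSpace ℝ E] (f : ℝ → E) :
    0 ≤ xsq f := setIntegral_nonneg measurableSet_Ioi fun x hx => by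
  have hx' : (0 : ℝ) < x := hx
  positivity

theorem nsq_nonneg {E : Type} [NormedAddCommGroup E] [InnerProductSpace ℝ E] (f : ℝ → E) :
    0 ≤ nsq f := integral_nonneg fun _ => sq_nonneg _

theorem rough_of {E : Type} [NormedAddCommGroup E] [InnerProductSpace ℝ E] {κ C : ℝ}
    {W : ℝ → E →L[ℝ] E} (hW : Rough2 κ C W) (B : E →L[ℝ] E) (t b : ℝ) (hb : ‖B‖ ≤ b) :
    Rough κ (C + b + 32 * b ^ 2) (fun x => W x + if t ≤ x then B else 0) := by
  intro j x hx
  have h1 := hW j x hx
  have hb0 : 0 ≤ b := (norm_nonneg _).trans hb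
  have h2 : ‖(W x + if t ≤ x then B else 0) - (W j + if t ≤ (j : ℝ) then B else 0)‖ ≤
      ‖W x - W j‖ + b := by
    have h3 : (W x + if t ≤ x then B else 0) - (W j + if t ≤ (j : ℝ) then B else 0) =
        (W x - W j) + ((if t ≤ x then B else 0) - if t ≤ (j : ℝ) then B else 0) := by abel
    rw [h3]
    refine (norm_add_le _ _).trans (add_le_add le_rfl ?_)
    split_ifs
    · rw [sub_self, norm_zero]
      exact hb0
    · rw [sub_zero]
      exact hb
    · rw [zero_sub, norm_neg]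
      exact hb
    · rw [sub_self, norm_zero]
      exact hb0
  have h4 : 0 ≤ ‖W x - W j‖ := norm_nonneg _
  have h5 := norm_nonneg ((W x + if t ≤ x then B else 0) - (W j + if t ≤ (j : ℝ) then B else 0))
  have h6 : ‖(W x + if t ≤ x then B else 0) - (W j + if t ≤ (j : ℝ) then B else 0)‖ ^ 2 ≤
      (‖W x - W j‖ + b) ^ 2 := pow_le_pow_left₀ h5 h2 2
  change ‖(W x + if t ≤ x then B else 0) - (W j + if t ≤ (j : ℝ) then B else 0)‖ + 16 *
    ‖(W x + if t ≤ x then B else 0) - (W j + if t ≤ (j : ℝ) then B else 0)‖ ^ 2 ≤ _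
  nlinarith [sq_nonneg (‖W x - W j‖ - b)]

theorem pert (hbase : S_BASE) (hstep : S_STEP) (hrk : S_RK) (hlb : S_LB) (hg : S_G) : S_PERT := by
  classical
  intro E _ _ _ κ C S W B t M m v hκ hC hS hW hrough hB ht hM hv
  obtain ⟨d, hd⟩ : ∃ d, d = Module.finrank ℝ E := ⟨_, rfl⟩
  have hBs : (B : E →ₗ[ℝ] E).IsSymmetric := fun x y => hB x y
  set u := hBs.eigenvectorBasis hd.symm with hu
  set a := hBs.eigenvalues hd.symm with ha
  have hBu : ∀ i, B (u i) = a i • u i := by
    intro i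
    exact hBs.apply_eigenvectorBasis hd.symm i
  have hab : ∀ i, |a i| ≤ ‖B‖ := by
    intro i
    have h1 := B.le_opNorm (u i)
    rw [hBu, norm_smul, u.orthonormal.1 i, mul_one, mul_one] at h1
    exact h1
  obtain ⟨b, hb⟩ : ∃ b, b = ‖B‖ := ⟨_, rfl⟩
  have hb0 : 0 ≤ b := by rw [hb]; exact norm_nonneg _
  rw [← hb] at hab
  set WL : ℕ → ℝ → E →L[ℝ] E := fun l x => W x + if t ≤ x then BLs u a l else 0 with hWL
  obtain ⟨A, hA⟩ : ∃ A, A = C + b + 32 * b ^ 2 + 4 * ‖S‖ ^ 2 + 1 := ⟨_, rfl⟩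
  have hA1 : 1 ≤ A := by
    rw [hA]
    have : 0 ≤ 4 * ‖S‖ ^ 2 := by positivity
    have : 0 ≤ 32 * b ^ 2 := by positivity
    linarith
  set s : ℝ := Real.sqrt (κ * t + 1) with hs
  have hs0 : 0 < s := Real.sqrt_pos.mpr (by positivity)
  have hgood : ∀ l, GoodW (WL l) := fun l =>
    (hstep E |>.1 κ S W (BLs u a l) t hW (BL_sym u a l) ht).1
  have hbf : ∀ l (f g : ℝ → E), IsTest f → IsTest g → bform κ S (WL l) f g =
      bform κ S W f g + inner ℝ (BLs u a l (f t)) (g t) := fun l =>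
    (hstep E |>.1 κ S W (BLs u a l) t hW (BL_sym u a l) ht).2
  have hLB : ∀ l, LB κ (A - 1) S (WL l) := by
    intro l
    have h1 := hlb E κ (C + b + 32 * b ^ 2) S (WL l) hκ (hgood l)
      (rough_of hrough (BLs u a l) t b (BL_norm u a l b hb0 hab))
    have h2 : A - 1 = C + b + 32 * b ^ 2 + 4 * ‖S‖ ^ 2 := by rw [hA]; ring
    rw [h2]
    exact h1
  have htest : ∀ c : Fin m → ℝ, IsTest (∑ i, c i • v i) := fun c =>
    (tst E).sum_mem fun i _ => (tst E).smul_mem _ (hv.test i)
  have hqQ : ∀ l (c : Fin m → ℝ), qf (matQ κ S (WL l) v) c = form κ S (WL l) (∑ i, c i • v i) :=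
    fun l => (hbase E κ S (WL l) hS (hgood l) m v hv.test).2.2.1
  have hqG : ∀ c : Fin m → ℝ, qf (matG v) c = nsq (∑ i, c i • v i) :=
    (hbase E κ S (WL 0) hS (hgood 0) m v hv.test).2.2.2.1
  have hGp : (matG v).PosDef := ((hbase E κ S (WL 0) hS (hgood 0) m v hv.test).2.2.2.2 hv).1
  have hQs : ∀ l, (matQ κ S (WL l) v).IsSymm := fun l =>
    (hbase E κ S (WL l) hS (hgood l) m v hv.test).1
  have hlow : ∀ l (c : Fin m → ℝ), -(A - 1) * qf (matG v) c ≤ qf (matQ κ S (WL l) v) c := by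
    intro l c
    rw [hqQ, hqG]
    have h1 := hLB l _ (htest c)
    have h2 := dsq_nonneg (∑ i, c i • v i)
    have h3 := xsq_nonneg (∑ i, c i • v i)
    have h4 : 0 ≤ κ * xsq (∑ i, c i • v i) := by positivity
    linarith
  have hw : ∀ l (k : Fin d) (c : Fin m → ℝ),
      ((fun i => inner ℝ (u k) (v i t)) ⬝ᵥ c) ^ 2 ≤
        (2 / s) * (qf (matQ κ S (WL l) v) c + A * qf (matG v) c) := by
    intro l k c
    rw [hqQ, hqG]
    have h1 := hLB l _ (htest c)
    have h2 := hg E κ (∑ i, c i • v i) t hκ.le (htest c) ht.le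
    have h3 : (fun i => inner ℝ (u k) (v i t)) ⬝ᵥ c = inner ℝ (u k) ((∑ i, c i • v i) t) := by
      rw [Finset.sum_apply, inner_sum]
      unfold dotProduct
      refine Finset.sum_congr rfl fun i _ => ?_
      rw [Pi.smul_apply, real_inner_smul_right, mul_comm]
    have h4 : (inner ℝ (u k) ((∑ i, c i • v i) t)) ^ 2 ≤ ‖(∑ i, c i • v i) t‖ ^ 2 := by
      rw [← sq_abs]
      apply pow_le_pow_left₀ (abs_nonneg _)
      have h5 := abs_real_inner_le_norm (u k) ((∑ i, c i • v i) t)
      rwa [u.orthonormal.1 k, one_mul] at h5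
    rw [h3]
    refine h4.trans ?_
    rw [div_mul_eq_mul_div, le_div_iff₀ hs0]
    have h6 := nsq_nonneg (∑ i, c i • v i)
    nlinarith
  have hstepQ : ∀ k : Fin d, matQ κ S (WL (k + 1)) v =
      matQ κ S (WL k) v + a k • vecMulVec (fun i => inner ℝ (u k) (v i t))
        (fun i => inner ℝ (u k) (v i t)) := by
    intro k
    ext i j
    unfold matQ
    rw [Matrix.add_apply, Matrix.smul_apply, vecMulVec_apply, Matrix.of_apply, Matrix.of_apply,
      hbf _ _ _ (hv.test i) (hv.test j), hbf _ _ _ (hv.test i) (hv.test j), BL_succ, smul_eq_mul]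
    ring
  have hone : ∀ k : Fin d, |Tm M (matQ κ S (WL (k + 1)) v) (matG v) -
      Tm M (matQ κ S (WL k) v) (matG v)| ≤ 6 * b * s⁻¹ * A := by
    intro k
    have h1 := hrk m (matQ κ S (WL k) v) (matG v) (fun i => inner ℝ (u k) (v i t)) (a k) A (2 / s)
      M (hQs k) hGp hA1 (by positivity) hM (hlow k) (hw k k)
      (by rw [← hstepQ]; exact hlow (k + 1)) (by rw [← hstepQ]; exact hw (k + 1) k)
    rw [← hstepQ] at h1
    refine h1.trans ?_
    have h2 := hab k
    calc 3 * |a k| * (2 / s) * A ≤ 3 * b * (2 / s) * A := by gcongr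
      _ = 6 * b * s⁻¹ * A := by rw [div_eq_mul_inv]; ring
  have htel : ∀ l : ℕ, l ≤ d → |Tm M (matQ κ S (WL l) v) (matG v) -
      Tm M (matQ κ S (WL 0) v) (matG v)| ≤ l * (6 * b * s⁻¹ * A) := by
    intro l
    induction l with
    | zero =>
      intro _
      simp
    | succ l ih =>
      intro hl
      have h1 := ih (by omega)
      have h2 := hone ⟨l, by omega⟩
      have h3 : Tm M (matQ κ S (WL (l + 1)) v) (matG v) - Tm M (matQ κ S (WL 0) v) (matG v) =
          (Tm M (matQ κ S (WL (l + 1)) v) (matG v) - Tm M (matQ κ S (WL l) v) (matG v)) +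
          (Tm M (matQ κ S (WL l) v) (matG v) - Tm M (matQ κ S (WL 0) v) (matG v)) := by ring
      rw [h3]
      refine (abs_add_le _ _).trans ?_
      push_cast
      have h4 : |Tm M (matQ κ S (WL (l + 1)) v) (matG v) - Tm M (matQ κ S (WL l) v) (matG v)| ≤
        6 * b * s⁻¹ * A := h2
      linarith
  have hfin := htel d le_rfl
  have hWd : WL d = fun x => W x + if t ≤ x then B else 0 := by
    rw [hWL]
    simp only [BL_all u a B hBu]
  have hW0 : WL 0 = W := by
    rw [hWL]
    funext x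
    simp only [BL_zero, ite_self, add_zero]
  rw [hWd, hW0] at hfin
  refine hfin.trans (le_of_eq ?_)
  rw [hA, hd, hb]
  ring

end Pool.Agent.Y658.SA
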