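import Pool.Agent.Y782.SA.Stm

/-!
Rank one perturbation of the log-determinant (`Pool.Agent.Y782.SA.S_RK`).
-/

set_option autoImplicit false

open Matrix Pool.Agent.Y782.SA

namespace Pool.Agent.Y658.SA

variable {m : ℕ}

/-- the matrix `Q + i E G` -/
noncomputable def ZZ (Q G : Matrix (Fin m) (Fin m) ℝ) (E : ℝ) : Matrix (Fin m) (Fin m) ℂ :=
  Q.map (fun x : ℝ => (x : ℂ)) + (E * Complex.I : ℂ) • G.map (fun x : ℝ => (x : ℂ))

theorem ZZ_mulVec (Q G : Matrix (Fin m) (Fin m) ℝ) (E : ℝ) (x : Fin m → ℂ) (i : Fin m) :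
    ((ZZ Q G E *ᵥ x) i).re = (Q *ᵥ fun j => (x j).re) i - E * (G *ᵥ fun j => (x j).im) i ∧
    ((ZZ Q G E *ᵥ x) i).im = (Q *ᵥ fun j => (x j).im) i + E * (G *ᵥ fun j => (x j).re) i := by
  have h : (ZZ Q G E *ᵥ x) i = ∑ j, ((Q i j : ℂ) + (E * Complex.I) * (G i j : ℂ)) * x j := by
    unfold ZZ Matrix.mulVec dotProduct
    refine Finset.sum_congr rfl fun j _ => ?_
    simp [Matrix.add_apply, Matrix.smul_apply, Matrix.map_apply]
  rw [h]
  constructor
  · rw [Complex.re_sum]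
    unfold Matrix.mulVec dotProduct
    rw [Finset.mul_sum, ← Finset.sum_sub_distrib]
    refine Finset.sum_congr rfl fun j _ => ?_
    simp
    ring
  · rw [Complex.im_sum]
    unfold Matrix.mulVec dotProduct
    rw [Finset.mul_sum, ← Finset.sum_add_distrib]
    refine Finset.sum_congr rfl fun j _ => ?_
    simp
    ring

theorem symm_dot {Q : Matrix (Fin m) (Fin m) ℝ} (hQ : Q.IsSymm) (u v : Fin m → ℝ) :
    u ⬝ᵥ (Q *ᵥ v) = v ⬝ᵥ (Q *ᵥ u) := by
  rw [Matrix.dotProduct_mulVec, ← Matrix.mulVec_transpose, hQ, dotProduct_comm]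

/-- the energy identities -/
theorem energy {Q G : Matrix (Fin m) (Fin m) ℝ} (hQ : Q.IsSymm) (hG : G.IsSymm) (E : ℝ)
    (x : Fin m → ℂ) (y : Fin m → ℝ) (h : ZZ Q G E *ᵥ x = fun i => (y i : ℂ)) :
    qf Q (fun j => (x j).re) + qf Q (fun j => (x j).im) = y ⬝ᵥ (fun j => (x j).re) ∧
    E * (qf G (fun j => (x j).re) + qf G (fun j => (x j).im)) = -(y ⬝ᵥ (fun j => (x j).im)) := by
  set u : Fin m → ℝ := fun j => (x j).re with hu
  set v : Fin m → ℝ := fun j => (x j).im with hv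
  have h1 : Q *ᵥ u - E • (G *ᵥ v) = y := by
    funext i
    have h2 := (ZZ_mulVec Q G E x i).1
    rw [h] at h2
    simp only [Complex.ofReal_re] at h2
    rw [Pi.sub_apply, Pi.smul_apply, smul_eq_mul]
    exact h2.symm
  have h2 : Q *ᵥ v + E • (G *ᵥ u) = 0 := by
    funext i
    have h3 := (ZZ_mulVec Q G E x i).2
    rw [h] at h3
    simp only [Complex.ofReal_im] at h3
    rw [Pi.add_apply, Pi.smul_apply, smul_eq_mul]
    exact h3.symm
  have e1 : u ⬝ᵥ (Q *ᵥ u) - E * (u ⬝ᵥ (G *ᵥ v)) = y ⬝ᵥ u := by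
    rw [dotProduct_comm y u, ← h1, dotProduct_sub, dotProduct_smul, smul_eq_mul]
  have e2 : v ⬝ᵥ (Q *ᵥ u) - E * (v ⬝ᵥ (G *ᵥ v)) = y ⬝ᵥ v := by
    rw [dotProduct_comm y v, ← h1, dotProduct_sub, dotProduct_smul, smul_eq_mul]
  have e3 : v ⬝ᵥ (Q *ᵥ v) + E * (v ⬝ᵥ (G *ᵥ u)) = 0 := by
    rw [← smul_eq_mul E, ← dotProduct_smul, ← dotProduct_add, h2, dotProduct_zero]
  have e4 : u ⬝ᵥ (Q *ᵥ v) + E * (u ⬝ᵥ (G *ᵥ u)) = 0 := by
    rw [← smul_eq_mul E, ← dotProduct_smul, ← dotProduct_add, h2, dotProduct_zero]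
  have e5 := symm_dot hQ u v
  have e6 := symm_dot hG u v
  unfold qf
  constructor
  · linear_combination e1 + e3 + E * e6
  · linear_combination -e2 + e4 - e5

theorem det_ne {Q G : Matrix (Fin m) (Fin m) ℝ} (hQ : Q.IsSymm) (hG : G.PosDef) {E : ℝ}
    (hE : 0 < E) : (ZZ Q G E).det ≠ 0 := by
  intro h0
  obtain ⟨x, hx, hZ⟩ := Matrix.exists_mulVec_eq_zero_iff.mpr h0
  have hGs : G.IsSymm := by
    have := hG.1
    unfold Matrix.IsHermitian at this
    rwa [Matrix.conjTranspose_eq_transpose_of_trivial] at this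
  obtain ⟨-, h2⟩ := energy hQ hGs E x 0 (by rw [hZ]; funext i; simp)
  rw [zero_dotProduct, neg_zero] at h2
  have hpos : ∀ z : Fin m → ℝ, z ≠ 0 → 0 < qf G z := by
    intro z hz
    have := hG.dotProduct_mulVec_pos hz
    simpa [qf] using this
  have hnn : ∀ z : Fin m → ℝ, 0 ≤ qf G z := by
    intro z
    by_cases hz : z = 0
    · rw [hz]
      unfold qf
      rw [zero_dotProduct]
    · exact (hpos z hz).le
  have h3 := (mul_eq_zero.mp h2).resolve_left hE.ne'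
  have h4 : (fun j => (x j).re) = 0 := by
    by_contra hne
    have := hpos _ hne
    have := hnn (fun j => (x j).im)
    linarith
  have h5 : (fun j => (x j).im) = 0 := by
    by_contra hne
    have := hpos _ hne
    have := hnn (fun j => (x j).re)
    linarith
  apply hx
  funext j
  apply Complex.ext
  · exact congrFun h4 j
  · exact congrFun h5 j

/-- one half of the estimate -/
theorem half {Q G : Matrix (Fin m) (Fin m) ℝ} (w : Fin m → ℝ) (s a τ E : ℝ) (hQ : Q.IsSymm)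
    (hG : G.PosDef) (ha : 1 ≤ a) (hτ : 0 ≤ τ) (hE : 1 ≤ E)
    (hw : ∀ x, (w ⬝ᵥ x) ^ 2 ≤ τ * (qf Q x + a * qf G x)) :
    ‖(ZZ (Q + s • vecMulVec w w) G E).det‖ ≤
      ‖(ZZ Q G E).det‖ * (1 + |s| * (3 / 2 * τ * a)) := by
  have hGs : G.IsSymm := by
    have := hG.1
    unfold Matrix.IsHermitian at this
    rwa [Matrix.conjTranspose_eq_transpose_of_trivial] at this
  have hdet := det_ne hQ hG (lt_of_lt_of_le one_pos hE)
  set W : Fin m → ℂ := fun i => (w i : ℂ) with hW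
  obtain ⟨x, hx⟩ : ∃ x : Fin m → ℂ, ZZ Q G E *ᵥ x = W := by
    refine ⟨(ZZ Q G E)⁻¹ *ᵥ W, ?_⟩
    rw [Matrix.mulVec_mulVec, Matrix.mul_nonsing_inv _ (isUnit_iff_ne_zero.mpr hdet),
      Matrix.one_mulVec]
  have hZ' : ZZ (Q + s • vecMulVec w w) G E =
      ZZ Q G E * (1 + replicateCol Unit ((s : ℂ) • x) * replicateRow Unit W) := by
    rw [Matrix.mul_add, Matrix.mul_one, ← Matrix.mul_assoc, ← Matrix.replicateCol_mulVec,
      Matrix.mulVec_smul, hx]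
    ext i j
    unfold ZZ
    simp [Matrix.mul_apply, vecMulVec_apply, hW]
    ring
  have hg : (ZZ (Q + s • vecMulVec w w) G E).det =
      (ZZ Q G E).det * (1 + s * (W ⬝ᵥ x)) := by
    rw [hZ', Matrix.det_mul, Matrix.det_one_add_replicateCol_mul_replicateRow, dotProduct_smul,
      smul_eq_mul]
  obtain ⟨h1, h2⟩ := energy hQ hGs E x w hx
  have hre : (W ⬝ᵥ x).re = w ⬝ᵥ (fun j => (x j).re) := by
    unfold dotProduct
    rw [Complex.re_sum]
    refine Finset.sum_congr rfl fun j _ => ?_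
    simp [hW]
  have him : (W ⬝ᵥ x).im = w ⬝ᵥ (fun j => (x j).im) := by
    unfold dotProduct
    rw [Complex.im_sum]
    refine Finset.sum_congr rfl fun j _ => ?_
    simp [hW]
  have hnn : ∀ z : Fin m → ℝ, 0 ≤ qf G z := by
    intro z
    by_cases hz : z = 0
    · rw [hz]
      unfold qf
      rw [zero_dotProduct]
    · have := hG.dotProduct_mulVec_pos hz
      have h3 : 0 < qf G z := by simpa [qf] using this
      exact h3.le
  obtain ⟨γ, hγ⟩ : ∃ γ : ℝ, γ = ‖W ⬝ᵥ x‖ := ⟨_, rfl⟩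
  have hγ0 : 0 ≤ γ := by rw [hγ]; exact norm_nonneg _
  have hγ2 : γ ^ 2 = (w ⬝ᵥ (fun j => (x j).re)) ^ 2 + (w ⬝ᵥ (fun j => (x j).im)) ^ 2 := by
    rw [hγ, Complex.sq_norm, Complex.normSq_apply, hre, him]
    ring
  have hb1 := hw (fun j => (x j).re)
  have hb2 := hw (fun j => (x j).im)
  have hq1 := hnn (fun j => (x j).re)
  have hq2 := hnn (fun j => (x j).im)
  set p1 := qf Q (fun j => (x j).re)
  set p2 := qf Q (fun j => (x j).im)
  set q1 := qf G (fun j => (x j).re)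
  set q2 := qf G (fun j => (x j).im)
  set g1 := w ⬝ᵥ (fun j => (x j).re)
  set g2 := w ⬝ᵥ (fun j => (x j).im)
  have hp : p1 + p2 = g1 := h1
  have hq : E * (q1 + q2) = -g2 := h2
  have hqq : (q1 + q2) ^ 2 ≤ g2 ^ 2 := by
    have h3 : 0 ≤ q1 + q2 := by linarith
    have h4 : q1 + q2 ≤ E * (q1 + q2) := by nlinarith
    have h5 : g2 ^ 2 = (E * (q1 + q2)) ^ 2 := by rw [hq]; ring
    rw [h5]
    exact pow_le_pow_left₀ h3 h4 2
  have hrr : g1 + a * (q1 + q2) ≤ 3 / 2 * a * γ := by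
    have h3 : (g1 + a * (q1 + q2)) ^ 2 ≤ (3 / 2 * a * γ) ^ 2 := by
      have h4 : (g1 + a * (q1 + q2)) ^ 2 ≤ (1 + a ^ 2) * (g1 ^ 2 + (q1 + q2) ^ 2) := by
        nlinarith [sq_nonneg (a * g1 - (q1 + q2))]
      have h5 : (1 + a ^ 2) * (g1 ^ 2 + (q1 + q2) ^ 2) ≤ (1 + a ^ 2) * γ ^ 2 := by
        apply mul_le_mul_of_nonneg_left _ (by positivity)
        rw [hγ2]
        linarith
      have h6 : (1 + a ^ 2) * γ ^ 2 ≤ (9 / 4 * a ^ 2) * γ ^ 2 := by
        apply mul_le_mul_of_nonneg_right _ (sq_nonneg _)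
        nlinarith
      calc (g1 + a * (q1 + q2)) ^ 2 ≤ (1 + a ^ 2) * (g1 ^ 2 + (q1 + q2) ^ 2) := h4
        _ ≤ (1 + a ^ 2) * γ ^ 2 := h5
        _ ≤ (9 / 4 * a ^ 2) * γ ^ 2 := h6
        _ = (3 / 2 * a * γ) ^ 2 := by ring
    by_contra hlt
    push Not at hlt
    have h7 : 0 ≤ 3 / 2 * a * γ := by positivity
    have h8 := pow_lt_pow_left₀ hlt h7 two_ne_zero
    linarith
  have hγle : γ ≤ 3 / 2 * τ * a := by
    have h3 : γ ^ 2 ≤ τ * (3 / 2 * a * γ) := by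
      have h4 : γ ^ 2 ≤ τ * (g1 + a * (q1 + q2)) := by
        calc γ ^ 2 = g1 ^ 2 + g2 ^ 2 := hγ2
          _ ≤ τ * (p1 + a * q1) + τ * (p2 + a * q2) := add_le_add hb1 hb2
          _ = τ * ((p1 + p2) + a * (q1 + q2)) := by ring
          _ = τ * (g1 + a * (q1 + q2)) := by rw [hp]
      exact h4.trans (mul_le_mul_of_nonneg_left hrr hτ)
    rcases hγ0.eq_or_lt with h0 | h0
    · rw [← h0]
      positivity
    · have h4 : γ * γ ≤ (3 / 2 * τ * a) * γ := by nlinarith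
      exact le_of_mul_le_mul_right h4 h0
  rw [hg, norm_mul]
  apply mul_le_mul_of_nonneg_left _ (norm_nonneg _)
  calc ‖1 + (s : ℂ) * (W ⬝ᵥ x)‖ ≤ ‖(1 : ℂ)‖ + ‖(s : ℂ) * (W ⬝ᵥ x)‖ := norm_add_le _ _
    _ = 1 + |s| * γ := by rw [norm_one, norm_mul, Complex.norm_real, Real.norm_eq_abs, hγ]
    _ ≤ 1 + |s| * (3 / 2 * τ * a) := by
      have := mul_le_mul_of_nonneg_left hγle (abs_nonneg s)
      linarith

theorem log_half {Q G : Matrix (Fin m) (Fin m) ℝ} (w : Fin m → ℝ) (s a τ E : ℝ) (hQ : Q.IsSymm)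
    (hG : G.PosDef) (ha : 1 ≤ a) (hτ : 0 ≤ τ) (hE : 1 ≤ E)
    (hw : ∀ x, (w ⬝ᵥ x) ^ 2 ≤ τ * (qf Q x + a * qf G x)) :
    Real.log ‖(ZZ (Q + s • vecMulVec w w) G E).det‖ ≤
      Real.log ‖(ZZ Q G E).det‖ + |s| * (3 / 2 * τ * a) := by
  have hE0 : 0 < E := lt_of_lt_of_le one_pos hE
  have hQ' : (Q + s • vecMulVec w w).IsSymm := by
    unfold Matrix.IsSymm at hQ ⊢
    rw [Matrix.transpose_add, Matrix.transpose_smul, hQ, Matrix.transpose_vecMulVec]
  have h1 := half w s a τ E hQ hG ha hτ hE hw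
  have h2 : 0 < ‖(ZZ Q G E).det‖ := norm_pos_iff.mpr (det_ne hQ hG hE0)
  have h3 : 0 < ‖(ZZ (Q + s • vecMulVec w w) G E).det‖ := norm_pos_iff.mpr (det_ne hQ' hG hE0)
  have h4 : 0 ≤ |s| * (3 / 2 * τ * a) := by positivity
  calc Real.log ‖(ZZ (Q + s • vecMulVec w w) G E).det‖
      ≤ Real.log (‖(ZZ Q G E).det‖ * (1 + |s| * (3 / 2 * τ * a))) := Real.log_le_log h3 h1
    _ = Real.log ‖(ZZ Q G E).det‖ + Real.log (1 + |s| * (3 / 2 * τ * a)) :=
        Real.log_mul h2.ne' (by positivity)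
    _ ≤ Real.log ‖(ZZ Q G E).det‖ + |s| * (3 / 2 * τ * a) := by
        have := Real.log_le_sub_one_of_pos (show 0 < 1 + |s| * (3 / 2 * τ * a) by positivity)
        linarith

theorem rk : S_RK := by
  intro m Q G w s a τ M hQ hG ha hτ hM _ h2 _ h4
  have hQ' : (Q + s • vecMulVec w w).IsSymm := by
    unfold Matrix.IsSymm at hQ ⊢
    rw [Matrix.transpose_add, Matrix.transpose_smul, hQ, Matrix.transpose_vecMulVec]
  have hback : Q + s • vecMulVec w w + (-s) • vecMulVec w w = Q := by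
    rw [add_assoc, ← add_smul, add_neg_cancel, zero_smul, add_zero]
  have key : ∀ E : ℝ, 1 ≤ E → |Real.log ‖(ZZ (Q + s • vecMulVec w w) G E).det‖ -
      Real.log ‖(ZZ Q G E).det‖| ≤ |s| * (3 / 2 * τ * a) := by
    intro E hE
    have k1 := log_half w s a τ E hQ hG ha hτ hE h2
    have k2 := log_half w (-s) a τ E hQ' hG ha hτ hE h4
    rw [hback, abs_neg] at k2
    rw [abs_le]
    constructor <;> linarith
  have hT : ∀ R : Matrix (Fin m) (Fin m) ℝ, Tm M R G =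
      Real.log ‖(ZZ R G M).det‖ - Real.log ‖(ZZ R G 1).det‖ := by
    intro R
    unfold Tm ZZ
    rw [Complex.ofReal_one, one_mul]
  have k1 := key M hM
  have k2 := key 1 le_rfl
  rw [hT, hT]
  rw [abs_le] at k1 k2 ⊢
  constructor
  · nlinarith [k1.1, k2.2]
  · nlinarith [k1.2, k2.1]

end Pool.Agent.Y658.SA
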